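import Mathlib
import Pool.Agent.Lib.P39cb5d.Main

/-!
Problem MP_39cb5d_an, Q1 (disproof).  For every perfect square `r = m ^ 2 ≥ 4` the equation
`f (f x + f (x - 1) + ⋯ + f (x - r + 1)) = x` has uncountably many continuous strictly increasing
solutions `f : ℝ → ℝ`, not only the affine solution `φ_r`.

Idea of proof: `f = H ∘ φ ∘ H⁻¹` (suitably centred), where `H` is a homeomorphism of the line that
commutes with integer translations and satisfies
`H t = P n + (w n / m) * (H (m ^ 2 * t) - m * n)` for `n ≤ m * t ≤ n + 1`, with positive weights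
`w n = P (n + 1) - P n` of period `m` and of sum `1` over a period.
-/

namespace Pool.Agent.Results.MP_39cb5d_an.PerfectSquares

/-- The affine solution `φ_r(x) = x / √r + (√r - 1) / 2`. -/
noncomputable def phi (r : ℕ) (x : ℝ) : ℝ := x / √(r : ℝ) + (√(r : ℝ) - 1) / 2

/-- **Result.**  Let `m ≥ 2` and let `p` be a real number with `|p - m / 2| < 1 / (m ^ 2 - 1)`.
Then there is a continuous strictly increasing `f : ℝ → ℝ` with
`f (∑_{j < m ^ 2} f (x - j)) = x` for all `x` and `f p = p`; if `p ≠ m / 2` then `f` is not the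
affine solution `φ_{m ^ 2}`. -/
theorem result (m : ℕ) (hm : 2 ≤ m) (p : ℝ) (hp : |p - (m : ℝ) / 2| < 1 / ((m : ℝ) ^ 2 - 1)) :
    ∃ f : ℝ → ℝ, Continuous f ∧ StrictMono f ∧
      (∀ x : ℝ, f (∑ j ∈ Finset.range (m ^ 2), f (x - (j : ℝ))) = x) ∧
      f p = p ∧ (p ≠ (m : ℝ) / 2 → f ≠ phi (m ^ 2)) := by
  obtain ⟨f, h1, h2, h3, h4⟩ := Pool.Agent.Lib.P39cb5d.exists_solution m hm p hp
  refine ⟨f, h1, h2, h3, h4, ?_⟩
  intro hne heq
  have hm2 : (2 : ℝ) ≤ m := by exact_mod_cast hm
  have hm0 : (0 : ℝ) < m := by positivity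
  have h5 := congrFun heq p
  rw [h4] at h5
  unfold phi at h5
  have h6 : √(((m ^ 2 : ℕ) : ℝ)) = m := by
    push_cast
    exact Real.sqrt_sq hm0.le
  rw [h6] at h5
  apply hne
  field_simp at h5
  have h7 : (2 * p - m) * ((m : ℝ) - 1) = 0 := by nlinarith
  rcases mul_eq_zero.mp h7 with h | h
  · linarith
  · exfalso; linarith

end Pool.Agent.Results.MP_39cb5d_an.PerfectSquares
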